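import Pool.Agent.H68.LCS.Targets

/-!
# MP_5607ba_lc, strong transfer, part A: row FT3 (separation)
-/

set_option autoImplicit false

open Set Filter Topology
open scoped Pointwise

namespace Pool.Agent.H75.LCS

open Pool.Agent.H93.CP Pool.Agent.H7.LP Pool.Agent.H7.LQ Pool.Agent.H68.LCS

section

variable {G : Type} [Group G] [TopologicalSpace G] {R : Subgroup G}

private theorem opA (n : ℕ) {U : Set G} (hU : IsOpen U) :
    IsOpen {y : Fe R | (y.y n ∩ U).Nonempty} :=
  TopologicalSpace.isOpen_generateFrom_of_mem (Or.inl ⟨n, U, hU, rfl⟩)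

private theorem opB (n : ℕ) {D : Set G} (hD : IsCompact D) :
    IsOpen {y : Fe R | ¬ (y.y n ∩ D).Nonempty} :=
  TopologicalSpace.isOpen_generateFrom_of_mem (Or.inr ⟨n, D, hD, rfl⟩)

private theorem clA (n : ℕ) {D : Set G} (hD : IsCompact D) :
    IsClosed {y : Fe R | (y.y n ∩ D).Nonempty} :=
  isOpen_compl_iff.1 (opB n hD)

private theorem clB (n : ℕ) {U : Set G} (hU : IsOpen U) :
    IsClosed {y : Fe R | ¬ (y.y n ∩ U).Nonempty} := by
  have h : {y : Fe R | ¬ (y.y n ∩ U).Nonempty} = {y : Fe R | (y.y n ∩ U).Nonempty}ᶜ := rfl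
  rw [h]
  exact (opA n hU).isClosed_compl

private theorem sub_of {y y' : Fe R} (h : Inseparable y y') (n : ℕ) : y.y n ⊆ y'.y n := by
  intro a ha
  by_contra hc
  have h1 : y ∈ {z : Fe R | (z.y n ∩ (y'.y n)ᶜ).Nonempty} := ⟨a, ha, hc⟩
  have h2 := (h.mem_open_iff (opA n (y'.cl n).isOpen_compl)).1 h1
  obtain ⟨b, hb, hb'⟩ := h2
  exact hb' hb

end

theorem pf_FT3 (h1 : T_LIT) (h2 : T_RGN) : T_FT3 := by
  intro G _ _ _ R P
  obtain ⟨l1, l2, l3⟩ := h1 G R P
  have hreg : RegularSpace (Fe R) := by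
    refine h2 (Fe R) _ ?_
    rintro s (⟨n, U, hU, rfl⟩ | ⟨n, D, hD, rfl⟩) y hy
    · obtain ⟨i, hi, hz⟩ := l2 y n U hU hy
      refine ⟨{z : Fe R | (z.y n ∩ P.D i).Nonempty}, fun z hz' => hz z hz', clA n (P.cpt i), ?_⟩
      exact mem_of_superset ((opA n (P.opn i)).mem_nhds hi) fun z hz' => l1 z n i hz'
    · obtain ⟨I, hI, -, hz⟩ := l3 y n D hD hy
      refine ⟨{z : Fe R | ∀ i ∈ I, ¬ (z.y n ∩ P.U i).Nonempty}, fun z hz' => hz z hz', ?_, ?_⟩
      · have h3 : {z : Fe R | ∀ i ∈ I, ¬ (z.y n ∩ P.U i).Nonempty} =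
            ⋂ i ∈ I, {z : Fe R | ¬ (z.y n ∩ P.U i).Nonempty} := by
          ext z
          simp only [mem_ofPred_eq, mem_iInter]
        rw [h3]
        exact isClosed_biInter fun i _ => clB n (P.opn i)
      · have h3 : IsOpen (⋂ i ∈ I, {z : Fe R | ¬ (z.y n ∩ P.D i).Nonempty}) :=
          isOpen_biInter_finset fun i _ => opB n (P.cpt i)
        refine mem_of_superset (h3.mem_nhds ?_) ?_
        · rw [mem_iInter₂]
          exact hI
        · intro z hz' i hi hc
          rw [mem_iInter₂] at hz'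
          exact hz' i hi (l1 z n i hc)
  have ht0 : T0Space (Fe R) := by
    rw [t0Space_iff_inseparable]
    intro y y' h
    apply Fe.ext
    funext n
    exact Subset.antisymm (sub_of h n) (sub_of h.symm n)
  exact { toT0Space := ht0, toRegularSpace := hreg }

end Pool.Agent.H75.LCS
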